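import Pool.Agent.U436.KC.Core
import Pool.Agent.U436.KC.GenPos

/-!
# Complete coverings of projective space branched along hyperplanes in general position

Let `k` be an algebraically closed field of any characteristic (for the problem: an algebraic closure of a finite
field), `p 1, …, p N ∈ k`, `A s i ≥ 0`, `n s ≥ 1` integers. We identify the projective space of dimension `d` with
the space of the polynomials `P ≠ 0` of degree at most `d`, up to scalars; `P (p i) = 0` is a hyperplane (these
hyperplanes osculate a rational normal curve). Let `Y` be the complete variety of the pairs `(P, y)`, `P ≠ 0`, with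

  `y s ^ n s = ∏ i, P (p i) ^ A s i`  (`s = 1, …, r`)

in the weighted projective space with the weights `E0` (for the `d + 1` coefficients of `P`) and `E s`, where
`n s * E s = E0 * ∑ i, A s i`. It is a (branched, abelian) covering of the projective space of dimension `d`; in
general it is singular, and not normal. Let `Γ` be the complete curve given by the same equations for `d = 1`.

(1) The map `(L j, v j) ↦ (∏ L j, ∏ v j)` is defined on `Γ ^ d` and maps it onto `Y`; its fibres are the orbits of
the finite group of the pairs of a permutation of the factors and a `d`-tuple of vectors `ζ j` of `n s`-th roots of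
unity with `∏ ζ j = τ ^ E`, `τ ^ E0 = 1`.

(2) ANY `d + 3` linear forms on the projective space of dimension `d` such that any `d + 1` of them are linearly
independent are, after a linear change of coordinates and up to nonzero factors, the forms `P ↦ P (p i)` with
distinct `p i`.

So all the coverings `y s ^ n s = ∏ i, (l i) ^ A s i` of the projective space of dimension `d` which are branched
along at most `d + 3` hyperplanes `l i = 0` in general position, for all exponents, are finite quotients of the
`d`-th powers of curves (up to a universal homeomorphism). The `ℓ`-adic cohomology of `Y` is the part of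
`H(Γ) ^ (⊗ d)` which is invariant under the finite group. The Frobenius is semisimple on the cohomology of every
complete curve (`H¹` has the weights 0 and 1, the part of weight 1 is semisimple by Weil), so it is semisimple on
the cohomology of all the complete varieties `Y` (not formalised).
-/

set_option autoImplicit false

namespace Pool.Agent.Results.MP_b685ef_ag.BranchedCovers

open Pool.Agent.U436.KC Polynomial

variable {k : Type} [Field k] {N r d : ℕ}

/-- The same point of the weighted projective space with the weights `E0` (coefficients of `P`) and `E s`. -/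
def SamePoint (E0 : ℕ) (E : Fin r → ℕ) (z z' : k[X] × (Fin r → k)) : Prop :=
  ∃ t : k, t ≠ 0 ∧ z'.1 = C (t ^ E0) * z.1 ∧ ∀ s, z'.2 s = t ^ E s * z.2 s

/-- The same orbit of the finite group on the points of the `d`-th power of the curve. -/
def SameOrbit (n : Fin r → ℕ) (E0 : ℕ) (E : Fin r → ℕ) (u u' : Fin d → k[X] × (Fin r → k)) : Prop :=
  ∃ (σ : Equiv.Perm (Fin d)) (ζ : Fin d → Fin r → k) (τ : k),
    (∀ j s, ζ j s ^ n s = 1) ∧ τ ^ E0 = 1 ∧ (∀ s, ∏ j, ζ j s = τ ^ E s) ∧
      ∀ j, SamePoint E0 E ((u (σ j)).1, fun s => ζ j s * (u (σ j)).2 s) (u' j)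

/-- The product map maps the `d`-th power of the curve onto the covering, and its fibres are the orbits. -/
def IsQuotient (d : ℕ) (p : Fin N → k) (A : Fin r → Fin N → ℕ) (n : Fin r → ℕ) (E0 : ℕ) (E : Fin r → ℕ) : Prop :=
  (∀ u : Fin d → k[X] × (Fin r → k), (∀ j, u j ∈ cover 1 p A n) → prodMap u ∈ cover d p A n) ∧
  (∀ z ∈ cover d p A n, ∃ u : Fin d → k[X] × (Fin r → k), (∀ j, u j ∈ cover 1 p A n) ∧ prodMap u = z) ∧
  (∀ u u' : Fin d → k[X] × (Fin r → k), (∀ j, u j ∈ cover 1 p A n) → (∀ j, u' j ∈ cover 1 p A n) →
    (SamePoint E0 E (prodMap u) (prodMap u') ↔ SameOrbit n E0 E u u'))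

/-- The linear forms are, after a linear isomorphism and up to nonzero factors, the evaluations of the polynomials
of degree at most `d` at distinct points. -/
def Osculating (l : Fin N → Fin (d + 1) → k) : Prop :=
  ∃ (p c : Fin N → k) (Ψ : degreeLT k (d + 1) ≃ₗ[k] (Fin (d + 1) → k)),
    Function.Injective p ∧ (∀ i, c i ≠ 0) ∧
      ∀ (P : degreeLT k (d + 1)) i, ∑ t, l i t * Ψ P t = c i * (P : k[X]).eval (p i)

theorem result :
    (∀ (k : Type) [Field k] [IsAlgClosed k] (d N r : ℕ), 1 ≤ d → ∀ (p : Fin N → k) (A : Fin r → Fin N → ℕ)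
      (n E : Fin r → ℕ) (E0 : ℕ), (∀ s, n s ≠ 0) → E0 ≠ 0 → (∀ s, n s * E s = E0 * ∑ i, A s i) →
        IsQuotient d p A n E0 E) ∧
    (∀ (k : Type) [Field k] [Infinite k] (d : ℕ) (l : Fin (d + 3) → Fin (d + 1) → k),
      (∀ S : Finset (Fin (d + 3)), S.card = d + 1 → LinearIndependent k (fun i : S => l i)) → Osculating l) := by
  refine ⟨?_, ?_⟩
  · intro k _ _ d N r hd p A n E E0 hn hE0 hE
    refine ⟨fun u hu => prodMap_mem hu, fun z hz => prodMap_surj hd hn hz, fun u u' hu hu' => ?_⟩
    unfold SameOrbit SamePoint
    rw [prodMap_eq_iff hn hE0 hE hu hu']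
    constructor
    · rintro ⟨σ, ζ, τ, κ, h1, h2, h3, h4, h5⟩
      exact ⟨σ, ζ, τ, h1, h2, h3, fun j => ⟨κ j, h4 j, (h5 j).1, (h5 j).2⟩⟩
    · rintro ⟨σ, ζ, τ, h1, h2, h3, h4⟩
      choose κ h5 h6 h7 using h4
      exact ⟨σ, ζ, τ, κ, h1, h2, h3, h5, fun j => ⟨h6 j, h7 j⟩⟩
  · intro k _ _ d l hl
    exact general_position l hl

end Pool.Agent.Results.MP_b685ef_ag.BranchedCovers
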