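import Pool.Agent.U554.TW.Ab
import Pool.Agent.U554.TW.Main
import Mathlib.RingTheory.SimpleModule.Basic
import Mathlib.Algebra.Polynomial.AlgebraMap

/-!
# Semisimplicity of Frobenius on the cohomology of complete varieties and of the cubics `T(x, y, z) = 1`

Let `k` be a finite field, `ℓ` a prime and `K` a field (an algebraic closure of `ℚ_ℓ`).

* A vector space over `K` with an operator (the Frobenius) is a module over the ring `K[F]` of
  polynomials in one variable `F` over `K`, on which `F` acts as the operator. The operator is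
  semisimple (diagonalisable, if `K` is algebraically closed) if and only if the module is semisimple:
  `Semisimple M`.
* `O b m X`, for the separated schemes `X` of finite type over `k`, is the Borel-Moore homology
  `H_{m + 2 b}(X̄, K(b))` with the action of the Frobenius; it is the dual of the cohomology with
  compact supports `H_c^i(X̄, K(b))`, `i = m + 2 b`, `b` arbitrary, which is `H^i(X̄, K)(b)` for `X`
  complete. For `X` smooth of pure dimension `d` it is `H^{2 j - m}(X̄, K(j))`, `j = d - b`.

`IsEtaleHomology` lists the known properties which are used. Let `T` be a trilinear form in three blocks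
`x`, `y`, `z` of `a₁`, `a₂`, `a₃` variables.

* `bilS T` is the closed subvariety `Z_T` of `𝔸^(a₂ + a₃)` given by the `a₁` bilinear equations
  `∂T/∂x_i (y, z) = 0`;
* `hypS T` is the smooth affine hypersurface `Y_T : T(x, y, z) = 1` of dimension
  `d = a₁ + a₂ + a₃ - 1`; `O (d - j) n (hypS T)` is `H^{2 j - n}(Ȳ_T, K(j))`.
-/

set_option autoImplicit false

open CategoryTheory AlgebraicGeometry Pool.Agent.Y116.UV Pool.Agent.U554.TU
  Pool.Agent.U554.TW

universe w

namespace Pool.Agent.Results.MP_b685ef_ag.CubicHypersurfaces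

variable {K : Type} [Field K]

/-- The operator of the `K[F]`-module `M` is semisimple. -/
def Semisimple (M : ModuleCat.{w} (Polynomial K)) : Prop := IsSemisimpleModule (Polynomial K) M

/-- The known properties of the étale homology over a finite field `k`: the properties `IsAbTheory`
(long exact sequences, homotopy invariance, ...) and

* `point`: `H_i(Spec k̄) = 0` for `i ≠ 0`;
* `torsor`: homotopy invariance for affine bundles;
* `jouanolou`: smooth separated schemes of finite type have affine bundles with affine total space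
  (Jouanolou, Thomason);
* `boundary`: `H_i(X)` is a direct factor of `H_{i + 1}(X × 𝔾_m)` (product with the class of the
  coordinate, boundary at `0`);
* `twist`: the groups `H_{m + 2 b}(X̄, K(b))` and `H_{m + 2 b}(X̄, K(b + 1))` are the same, with
  proportional operators;
* `double`: if `Spec A` is an open subscheme of the projective scheme `P` with complement `D`, then
  the homology of `Spec A`, which is the homology of `P` relative to `D`, is a direct factor of the
  homology of the projective scheme `W = P × {0} ∪ D × ℙ¹ ∪ P × {1}` in `P × ℙ¹`. -/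
structure IsEtaleHomology {k : Type} [Field k] (O : ℤ → ℤ → Sch k → ModuleCat.{w} (Polynomial K)) :
    Prop extends IsAbTheory O where
  point : ∀ b m : ℤ, m + 2 * b ≠ 0 → Limits.IsZero (O b m (aff k k))
  torsor : BundleInvariant (abRel (ModuleCat.{w} (Polynomial K))) O
  jouanolou : ∀ X : Sch k, FT True X → Smooth X.hom → HasAffineBundle X
  boundary : ∀ (A : Type) [CommRing A] [Algebra k A] [Algebra.FiniteType k A] (b m : ℤ),
    Nonempty (Retract (O b m (aff k A)) (O b (m + 1) (aff k (LaurentPolynomial A))))
  twist : ∀ (X : Sch k) (b m : ℤ), FT True X →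
    ∃ (q : K) (e : O b m X →+ O (b + 1) (m - 2) X), q ≠ 0 ∧ Function.Bijective e ∧
      (∀ (a : K) (v : O b m X), e (Polynomial.C a • v) = Polynomial.C a • e v) ∧
      ∀ v : O b m X, e ((Polynomial.X : Polynomial K) • v) = (Polynomial.C q * Polynomial.X) • e v
  double : ∀ (A : Type) [CommRing A] [Algebra k A] [Algebra.FiniteType k A],
    ∃ W : Sch k, FT True W ∧ IsProper W.hom ∧ HasAffineBundle W ∧
      ∀ b m : ℤ, Nonempty (Retract (O b m (aff k A)) (O b m W))

lemma inherited : Inherited (abRel (ModuleCat.{w} (Polynomial K))) Semisimple := by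
  rintro X Y ⟨r⟩ hY
  have hY' : IsSemisimpleModule (Polynomial K) Y := hY
  refine IsSemisimpleModule.of_injective r.i.hom ?_
  refine Function.LeftInverse.injective (g := r.r.hom) fun x => ?_
  have h := congrArg (fun f => f.hom x) r.retract
  simpa only [ModuleCat.hom_comp, LinearMap.comp_apply, ModuleCat.hom_id, LinearMap.id_apply] using h

/-- Proportional operators. -/
lemma semisimple_twist {M N : ModuleCat.{w} (Polynomial K)} (q : K) (e : M →+ N) (hq : q ≠ 0)
    (he : Function.Bijective e)
    (h1 : ∀ (a : K) (v : M), e (Polynomial.C a • v) = Polynomial.C a • e v)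
    (h2 : ∀ v : M, e ((Polynomial.X : Polynomial K) • v) = (Polynomial.C q * Polynomial.X) • e v) :
    Semisimple M ↔ Semisimple N := by
  let σ : Polynomial K →+* Polynomial K := (Polynomial.aeval (R := K)
    (Polynomial.C q * Polynomial.X)).toRingHom
  have hC : ∀ a : K, σ (Polynomial.C a) = Polynomial.C a := fun a => Polynomial.aeval_C _ a
  have hX : σ Polynomial.X = Polynomial.C q * Polynomial.X := Polynomial.aeval_X _
  have hσ : Function.Surjective σ := by
    intro p
    refine ⟨Polynomial.aeval (R := K) (Polynomial.C q⁻¹ * Polynomial.X) p, ?_⟩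
    induction p using Polynomial.induction_on with
    | C a => rw [Polynomial.aeval_C]; exact hC a
    | add p p' hp hp' => rw [map_add, map_add, hp, hp']
    | monomial n a hn =>
      rw [pow_succ, ← mul_assoc, map_mul, map_mul, hn, Polynomial.aeval_X, map_mul, hC, hX,
        ← mul_assoc (Polynomial.C q⁻¹), ← Polynomial.C_mul, inv_mul_cancel₀ hq, Polynomial.C_1,
        one_mul]
  have he' : ∀ (p : Polynomial K) (v : M), e (p • v) = σ p • e v := by
    intro p
    induction p using Polynomial.induction_on with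
    | C a => intro v; rw [hC]; exact h1 a v
    | add p p' hp hp' => intro v; rw [add_smul, map_add, hp, hp', map_add, add_smul]
    | monomial n a hn =>
      intro v
      rw [pow_succ, ← mul_assoc, mul_smul, hn, h2, map_mul σ (_ * _) Polynomial.X, hX, ← mul_smul]
  have : RingHomSurjective σ := ⟨hσ⟩
  let l : M →ₛₗ[σ] N := { e with map_smul' := he' }
  exact l.isSemisimpleModule_iff_of_bijective he

section

variable {k : Type} [Field k] {O : ℤ → ℤ → Sch k → ModuleCat.{w} (Polynomial K)}

lemma twist_iff (hO : IsEtaleHomology O) (X : Sch k) (hX : FT True X) (b m : ℤ) :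
    Semisimple (O b m X) ↔ Semisimple (O (b + 1) (m - 2) X) := by
  obtain ⟨q, e, hq, he, h1, h2⟩ := hO.twist X b m hX
  exact semisimple_twist q e hq he h1 h2

/-- Semisimplicity for the affine schemes passes to the lower degrees. -/
lemma descend (hO : IsEtaleHomology O) (d : ℕ) (m : ℤ)
    (h : ∀ (A : Type) [CommRing A] [Algebra k A] [Algebra.FiniteType k A] (b : ℤ),
      Semisimple (O b (m + d) (aff k A))) :
    ∀ (A : Type) [CommRing A] [Algebra k A] [Algebra.FiniteType k A] (b : ℤ),
      Semisimple (O b m (aff k A)) := by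
  induction d with
  | zero => simpa using h
  | succ d ih =>
    apply ih
    intro A _ _ _ b
    have h3 : Algebra.FiniteType k (LaurentPolynomial A) := ft_laurent A
    have h4 := h (LaurentPolynomial A) b
    rw [show m + ((d + 1 : ℕ) : ℤ) = m + d + 1 from by push_cast; ring] at h4
    exact inherited _ _ (hO.boundary A b (m + d)) h4

/-- Semisimplicity for the affine schemes passes to the higher degrees of the same parity. -/
lemma ascend (hO : IsEtaleHomology O) (d : ℕ) (m : ℤ)
    (h : ∀ (A : Type) [CommRing A] [Algebra k A] [Algebra.FiniteType k A] (b : ℤ),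
      Semisimple (O b m (aff k A))) :
    ∀ (A : Type) [CommRing A] [Algebra k A] [Algebra.FiniteType k A] (b : ℤ),
      Semisimple (O b (m + 2 * d) (aff k A)) := by
  induction d with
  | zero => simpa using h
  | succ d ih =>
    intro A _ _ _ b
    rw [twist_iff hO _ (ft_aff True)]
    have h4 := ih A (b + 1)
    rwa [show m + 2 * ((d + 1 : ℕ) : ℤ) - 2 = m + 2 * d from by push_cast; ring]

/-- From one degree for the affine schemes to all degrees. -/
lemma all_degrees (hO : IsEtaleHomology O) (n : ℤ)
    (h : ∀ (A : Type) [CommRing A] [Algebra k A] [Algebra.FiniteType k A] (b : ℤ),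
      Semisimple (O b n (aff k A))) (m : ℤ) (A : Type) [CommRing A] [Algebra k A]
    [Algebra.FiniteType k A] (b : ℤ) : Semisimple (O b m (aff k A)) := by
  have h1 := ascend hO (m - n).toNat n h
  refine descend hO (n + 2 * (m - n).toNat - m).toNat m ?_ A b
  intro A _ _ _ b
  rw [show m + (((n + 2 * (m - n).toNat - m).toNat : ℕ) : ℤ) = n + 2 * ((m - n).toNat : ℤ) from by
    omega]
  exact h1 A b

end

/-- **Semisimplicity of Frobenius: complete varieties, bilinear equations, and the cubic hypersurfaces
`T(x, y, z) = 1`.** Let `k` be a finite field, `ℓ` a prime, `K` an algebraic closure of `ℚ_ℓ`, and let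
`O b m X` have the known properties of the homology `H_{m + 2 b}(X̄, K(b))` with the Frobenius, for the
separated schemes `X` of finite type over `k`. Let `n` and `s` be arbitrary fixed integers with `n < 2 s`.
The following assertions are equivalent:
* for all complete `X` which have an affine bundle with affine total space (for example all projective
  varieties, singular or not) the Frobenius is semisimple on `H^i(X̄, K)` for all `i` (Q1 for these `X`);
* for all separated `X` of finite type which have an affine bundle with affine total space (all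
  quasi-projective `X`) the Frobenius is semisimple on `H_c^i(X̄, K)` for all `i`;
* for all smooth `X` the Frobenius is semisimple on `H^i(X̄, K)` for all `i`;
* for all closed subvarieties `Z_T` of `𝔸^(a₂ + a₃)` which are given by a finite number of bilinear
  equations in `a₂ + a₃` variables, the Frobenius is semisimple on `H_c^i(Z̄_T, K)` for all `i` of the
  parity of `n - 1`;
* for all trilinear forms `T` the Frobenius is semisimple on `H^{2 j - n}(Ȳ_T, K)` for all `j ≥ s`.
If `k` is a prime field, the bilinear equations with coefficients `0` and `1` are sufficient in the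
fourth assertion, and the hypersurfaces `∑_{(i, j, l) ∈ S} x_i y_j z_l = 1`, `S` a finite set of triples,
in the last one. -/
theorem result (k : Type) [Field k] [Finite k] (ℓ : ℕ) [Fact ℓ.Prime]
    (O : ℤ → ℤ → Sch k → ModuleCat.{w} (Polynomial (AlgebraicClosure ℚ_[ℓ])))
    (hO : IsEtaleHomology O) (n : ℤ) (s : ℕ) (hs : n < 2 * s) :
    List.TFAE [
      ∀ X : Sch k, FT True X → IsProper X.hom → HasAffineBundle X →
        ∀ b m : ℤ, Semisimple (O b m X),
      ∀ X : Sch k, FT True X → HasAffineBundle X → ∀ b m : ℤ, Semisimple (O b m X),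
      ∀ X : Sch k, FT True X → Smooth X.hom → ∀ b m : ℤ, Semisimple (O b m X),
      ∀ (a₁ a₂ a₃ : ℕ) (T : Fin a₁ → Fin a₂ → Fin a₃ → k) (b : ℤ),
        Semisimple (O b (n - 1) (bilS T)),
      ∀ (a₁ a₂ a₃ : ℕ) (T : Fin a₁ → Fin a₂ → Fin a₃ → k) (j : ℕ), s ≤ j →
        Semisimple (O (a₁ + a₂ + a₃ - 1 - j) n (hypS T))] ∧
    ((∀ x : k, ∃ d n : ℤ, (d : k) ≠ 0 ∧ (n : k) = d * x) →
      List.TFAE [
        ∀ X : Sch k, FT True X → IsProper X.hom → HasAffineBundle X →
          ∀ b m : ℤ, Semisimple (O b m X),
        ∀ (a₁ a₂ a₃ : ℕ) (T : Fin a₁ → Fin a₂ → Fin a₃ → k), (∀ i j l, T i j l = 0 ∨ T i j l = 1) →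
          ∀ b : ℤ, Semisimple (O b (n - 1) (bilS T)),
        ∀ (a₁ a₂ a₃ : ℕ) (S : Finset (Fin a₁ × Fin a₂ × Fin a₃)) (j : ℕ), s ≤ j →
          Semisimple (O (a₁ + a₂ + a₃ - 1 - j) n (tripS k S))]) := by
  have hT := hO.toIsAbTheory.isTheory
  have hsm : ∀ (a₁ a₂ a₃ : ℕ) (T : Fin a₁ → Fin a₂ → Fin a₃ → k), Smooth (hypS T).hom := by
    intro a₁ a₂ a₃ T
    change Smooth (Spec.map (CommRingCat.ofHom (algebraMap k (Hyp T))))
    rw [HasRingHomProperty.Spec_iff (P := @Smooth)]
    exact RingHom.smooth_algebraMap.mpr (hyp_smooth T)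
  have hy : ∀ (C : Set k), 0 ∈ C → 1 ∈ C → Presents C →
      (∀ (a₁ a₂ a₃ : ℕ) (T : Fin a₁ → Fin a₂ → Fin a₃ → k), (∀ i j l, T i j l ∈ C) →
        ∀ j : ℕ, s ≤ j → Semisimple (O (a₁ + a₂ + a₃ - 1 - j) n (hypS T))) →
      ∀ X : Sch k, FT True X → HasAffineBundle X → ∀ b m : ℤ, Semisimple (O b m X) := by
    intro C h0 h1 hC h X hX hX' b m
    refine bundle_of_affine hO.torsor inherited m ?_ X hX hX' b
    refine fun A _ _ _ b => all_degrees hO (n - 1) (fun A _ _ _ b => ?_) m A b
    refine affine_of_hyp hT inherited h0 h1 hC s (n - 1) (fun a₁ a₂ a₃ T hT' j hj => ?_) A b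
    rw [sub_add_cancel]
    exact h a₁ a₂ a₃ T hT' j hj
  have hz : ∀ (a₁ a₂ a₃ : ℕ) (T : Fin a₁ → Fin a₂ → Fin a₃ → k),
      (∀ b : ℤ, Semisimple (O b (n - 1) (bilS T))) → ∀ j : ℕ, s ≤ j →
        Semisimple (O (a₁ + a₂ + a₃ - 1 - j) n (hypS T)) := by
    intro a₁ a₂ a₃ T h j hj
    have h2 := bil_hyp hT T j (n - 1) (hO.point _ _ (by omega)) (hO.point _ _ (by omega))
    rw [sub_add_cancel] at h2
    exact (inherited.iff h2).mpr (h _)
  refine ⟨?_, ?_⟩
  · tfae_have 2 → 1 := fun h X h1 _ h2 => h X h1 h2
    tfae_have 1 → 4 := by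
      intro h a₁ a₂ a₃ T b
      obtain ⟨W, h1, h2, h3, h4⟩ := hO.double (MvPolynomial (Fin a₂ ⊕ Fin a₃) k ⧸
        Ideal.span (Set.range fun i => bil (Fin a₂) (Fin a₃) (T i)))
      exact inherited _ _ (h4 b (n - 1)) (h W h1 h2 h3 b (n - 1))
    tfae_have 2 → 3 := fun h X h1 h2 => h X h1 (hO.jouanolou X h1 h2)
    tfae_have 3 → 5 := fun h a₁ a₂ a₃ T j _ => h _ (ft_aff True) (hsm _ _ _ T) _ _
    tfae_have 4 → 5 := fun h a₁ a₂ a₃ T j hj => hz a₁ a₂ a₃ T (h a₁ a₂ a₃ T) j hj
    tfae_have 5 → 2 := fun h =>
      hy Set.univ trivial trivial presents_univ fun a₁ a₂ a₃ T _ j hj => h a₁ a₂ a₃ T j hj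
    tfae_finish
  · intro hk
    have hy' := hy {0, 1} (Or.inl rfl) (Or.inr rfl) (presents_prime hk)
    tfae_have 1 → 2 := by
      intro h a₁ a₂ a₃ T _ b
      obtain ⟨W, h1, h2, h3, h4⟩ := hO.double (MvPolynomial (Fin a₂ ⊕ Fin a₃) k ⧸
        Ideal.span (Set.range fun i => bil (Fin a₂) (Fin a₃) (T i)))
      exact inherited _ _ (h4 b (n - 1)) (h W h1 h2 h3 b (n - 1))
    tfae_have 2 → 3 := by
      intro h a₁ a₂ a₃ S j hj
      obtain ⟨T, hT', hS⟩ := trip_hyp (R := k) S
      rw [← hS]
      exact hz a₁ a₂ a₃ T (h a₁ a₂ a₃ T hT') j hj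
    tfae_have 3 → 1 := by
      intro h X h1 _ h2
      refine hy' (fun a₁ a₂ a₃ T hT' j hj => ?_) X h1 h2
      obtain ⟨S, hS⟩ := hyp_zero_one T hT'
      rw [hS]
      exact h a₁ a₂ a₃ S j hj
    tfae_finish

end Pool.Agent.Results.MP_b685ef_ag.CubicHypersurfaces
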