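import Mathlib
import Pool.Agent.U282.PW.Pow

/-!
# The number and the sizes of the Jordan blocks of Frobenius on the powers of a complete variety

Let `X` be any complete variety over a finite field, singular or not, `H` the total `l`-adic
cohomology of `X` with coefficients in an algebraic closure `K` of the `l`-adic numbers, `b = dim H`,
and `F` the Frobenius automorphism of `H`. By the Künneth formula for proper varieties the total
cohomology of `X^n` is the `n`-th tensor power of `H`.

Let `N` be the nilpotent part of `F`, so that `b - dim (⨆ l, ker (F - l)^k)` is the rank of `N^k`,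
and let `S = ∑ k, k * rk N^k`. Let `β n k` be the number of the Jordan blocks of size more than `k`
of Frobenius on the total cohomology of `X^n`.

*Theorem.* If `F` is semisimple then `β n 0 = b ^ n` and `β n k = 0` for `k ≥ 1`. If `F` is not
semisimple then `S ≥ 1`, the number `β n 0` of all Jordan blocks of Frobenius on the cohomology of
`X^n` is asymptotically `√(b / (π S n)) * b ^ n`, and the sizes of the blocks, divided by `√n`, follow
Rayleigh's law: if `k_n / √n → z` then `√n * β n k_n / b ^ n → √(b / (π S)) * exp (- z² b / (4 S))`
and `β n k_n / β n 0 → exp (- z² b / (4 S))`.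

So a failure of semisimplicity in one degree of one complete variety `X`, however small, makes the
proportion of Jordan blocks (the number of blocks divided by the dimension) on the powers of `X` tend
to zero, at the rate `1 / √n` with an explicit constant; and Frobenius is semisimple on the
cohomology of `X` if for one `C > √(b / π)` there are infinitely many `n` for which Frobenius has at
least `C b^n / √n` Jordan blocks on the cohomology of `X^n`.
-/

set_option autoImplicit false

open Module Filter

universe u v

namespace Pool.Agent.Results.MP_b685ef_ag.JordanBlocksOfPowers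

open Pool.Agent.U282.PW

variable {K : Type u} [Field K] [CharZero K] [IsAlgClosed K]

/-- **The number and the sizes of the Jordan blocks of Frobenius on the powers of a complete
variety.** -/
theorem result (X : CompletePowers.{u, v} K) :
    (SS (X.Fr 1) → ∀ n k, allBlocks (X.Fr n) k =
      if k = 0 then finrank K (X.H 1) ^ n else 0) ∧
    (¬ SS (X.Fr 1) → 1 ≤ size (X.Fr 1) ∧ ∀ (kk : ℕ → ℕ) (z : ℝ),
      Tendsto (fun n : ℕ => (kk n : ℝ) / √n) atTop (nhds z) →
      Tendsto (fun n : ℕ => √n *
        ((allBlocks (X.Fr n) (kk n) : ℝ) / (finrank K (X.H 1) : ℝ) ^ n)) atTop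
        (nhds (√(finrank K (X.H 1) / (Real.pi * size (X.Fr 1))) *
          Real.exp (-(z ^ 2 * finrank K (X.H 1) / (4 * size (X.Fr 1)))))) ∧
      Tendsto (fun n : ℕ =>
        (allBlocks (X.Fr n) (kk n) : ℝ) / (allBlocks (X.Fr n) 0 : ℝ)) atTop
        (nhds (Real.exp (-(z ^ 2 * finrank K (X.H 1) / (4 * size (X.Fr 1))))))) :=
  complete_law X

end Pool.Agent.Results.MP_b685ef_ag.JordanBlocksOfPowers
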