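import Pool.Agent.U273.FS.AutMain

/-!
# Frobenius semisimplicity for complete varieties with an automorphism of prime power order

Let `X` be **any complete variety** (a proper scheme, possibly singular) over the finite field `κ` with `q`
elements, and let `σ` be **any automorphism of `X` over `κ` of order `p ^ (s + 1)`**, where `p` is any prime
number; `p = char κ` is allowed (wild automorphisms), and the coefficients `E` (an algebraically closed
field of characteristic zero, for example an algebraic closure of `ℚ_ℓ`) are arbitrary. Let
`τ = σ ^ (p ^ s)`, of order `p`, and let `U` be the open set of the points of `X` which are not fixed by `τ`;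
the group generated by `σ` acts freely on it. Suppose that `τ` acts trivially on the cohomology of `X`
outside of the degree `m` (for example if `X / τ` has the cohomology of `X` in these degrees by a theorem
of Lefschetz).

**Theorem.** Let `P₁ / P₂` be the zeta function of the quotient `U / σ`, where `P₁`, `P₂` are polynomials
with integral coefficients and constant term one (Dwork). Suppose that **modulo `p` the quotient
`H = P₂ / P₁` (for even `m`), `H = P₁ / P₂` (for odd `m`) is a squarefree polynomial**, whose degree is the
dimension of the eigenspaces of `σ` on `H^m(X, E)` for the primitive roots of unity of order `p ^ (s + 1)`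
(up to the sign, the Euler characteristic of `U / σ`). Then **the Frobenius is semisimple on `H^m(X, E)`
if and only if it is semisimple on the part `H^m(X, E)^τ = H^m(X / τ, E)`**. So the question is reduced to the
smaller variety `X / τ`; by induction one gets to `X / σ`. There is no condition on the Hodge numbers, the
slopes, the singularities or the fixed points.

Here the objects are the actual schemes: `X` is a scheme proper over `κ`, a geometric point is a morphism
`Spec Ω → X` over `κ`, `Ω` the algebraic closure (`GeometricPoint`), on which Frobenius and the automorphism
act (`frobenius`, `act`); that their fixed points are finite in number is proved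
(`Pool.Agent.U273.FS.frobenius_finite`). The cohomology groups enter through the trace formula of
Lefschetz and Grothendieck for all compositions of powers of Frobenius and of `σ` (`IsCohomology`). The
number of points of `U / σ` over the extension of degree `n` is the number of pairs `(x, j)`,
`j < p ^ (s + 1)`, such that `x` is moved by `τ` and fixed by `F ^ n σ ^ j`, divided by `p ^ (s + 1)`
(`HasQuotientZeta`).

Examples. (1) Cyclic coverings `y ^ (p ^ t) = f` of any complete variety `Y` instead of the projective
space (starting library: `CyclicHypersurfaces`, `SingularCyclicCoverings`, for `p` different from the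
characteristic). For a smooth projective surface `Y`, a smooth curve `C` and a covering `X → Y` of degree
`p` totally branched along `C`, the polynomial is `H = P(C) P_2(Y) / P_1(Y) ^ 2` modulo `p`, where `P(C)`,
`P_i(Y)` are the characteristic polynomials on `H^1(C)`, `H^i(Y)`. (2) Artin-Schreier and
Artin-Schreier-Witt coverings of complete varieties: `p` is the characteristic. (3) Automorphisms which
are not given by a covering structure, with arbitrary fixed points, for example permutations of the
coordinates.

The proof. Let `ω` be a primitive root of unity of order `N = p ^ (s + 1)`. By the trace formula the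
traces of the powers of Frobenius on the `ω`-eigenspace `W` of `σ` are, up to the sign `(-1) ^ m`, the sums
`N⁻¹ ∑_j ω ^ (-j) #{x | σ ^ j F ^ n x = x}`; the points fixed by `τ` do not contribute. The points of `U`
form cycles of Frobenius on `U / σ`, and a cycle of length `d` has a class `i` in `ℤ / N`, defined by
`σ ^ i F ^ d x = x`; so the sum is `∑_{d | n} d ∑_i a(d, i) ω ^ (- i n / d)`, where `a(d, i)` is the number of
closed points of `U / σ` of degree `d` and class `i` (`U273/FS/Aut`, `U273/FS/AutP`). For `ω = 1` one gets the
number of points of `U / σ`. Modulo a place above `p` the Euler products agree (part EC of project HS of the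
starting library), so `det(1 - T F | W) = H` modulo this place, and `F` has different eigenvalues on
`W`. The case of a cyclic covering of the projective space (`y ^ N = F(x)`) is due to the starting library;
new are the general variety, the general automorphism with class function `(d, i)` instead of a
Kummer symbol, the case `p = char κ`, and the reduction to `X / τ`.
-/

set_option autoImplicit false

open CategoryTheory AlgebraicGeometry Polynomial

namespace Pool.Agent.Results.MP_b685ef_ag.PrimePowerAutomorphisms

open Pool.Agent.U273.FS

/-- **The Frobenius is semisimple on `H^m(X)` if and only if it is semisimple on the invariants of `τ`,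
the power of order `p` of the automorphism `σ` of prime power order, if the zeta function of `U / σ` (or
its inverse) is a squarefree polynomial modulo `p` of the right degree.** -/
theorem result (κ : Type) [Field κ] [Fintype κ] (X : Scheme.{0})
    (π : X ⟶ Spec (CommRingCat.of κ)) [IsProper π] (p s : ℕ) (hp : p.Prime) (σ : X ⟶ X)
    (hσ : σ ≫ π = π) (hord : power σ (p ^ (s + 1)) = 𝟙 X)
    (E : Type) [Field E] [CharZero E] [IsAlgClosed E] (D : CohomologyGroups E)
    (hD : D.IsCohomology π σ hσ (p ^ (s + 1))) (m : ℕ) (hm : m ≤ D.top)
    (htriv : ∀ i, i ≠ m → ∀ v, (D.aut i ^ p ^ s) v = v)
    -- the zeta function of `U / σ`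
    (P₁ P₂ : ℤ[X]) (hP : HasQuotientZeta E π σ hσ (p ^ s) (p ^ (s + 1)) P₁ P₂)
    -- the condition modulo `p`
    (H : (ZMod p)[X]) (hH : Squarefree H)
    (hdim : ∀ ω : E, IsPrimitiveRoot ω (p ^ (s + 1)) →
      H.natDegree = Module.finrank E ((D.aut m).eigenspace ω))
    (hev : Even m → H * P₁.map (Int.castRingHom (ZMod p)) = P₂.map (Int.castRingHom (ZMod p)))
    (hodd : Odd m → H * P₂.map (Int.castRingHom (ZMod p)) = P₁.map (Int.castRingHom (ZMod p))) :
    (D.frob m).IsSemisimple ↔ SemisimpleOn (D.frob m) ((D.aut m ^ p ^ s).eigenspace 1) :=
  automorphism hp π σ hσ hord D hD m hm htriv P₁ P₂ hP H hH hdim hev hodd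

end Pool.Agent.Results.MP_b685ef_ag.PrimePowerAutomorphisms
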